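import Pool.Agent.Lib.MP_e0d433_co.F.Final

/-!
# Superpermutations: shorter than the Egan-Williams bound for every `n ≥ 8`
-/

namespace Pool.Agent.Results.MP_e0d433_co.AllN

open Pool.Agent.Lib.MP_e0d433_co

/-- For every `n ≥ 8` there is a superpermutation on `n` symbols of length at most
`n! + (n-1)! + (n-2)! + (53/60) (n-3)! + (1/6) (n-4)!`, which is less than
`n! + (n-1)! + (n-2)! + (n-3)! + n - 3`. -/
theorem result : ∀ n : ℕ, 8 ≤ n →
    ∃ w : List (Fin n), IsSuperperm n w ∧
      60 * w.length ≤ 60 * (n.factorial + (n - 1).factorial + (n - 2).factorial) +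
        53 * (n - 3).factorial + 10 * (n - 4).factorial ∧
      w.length + 3 < n.factorial + (n - 1).factorial + (n - 2).factorial +
        (n - 3).factorial + n := by
  intro n hn
  exact short hn

end Pool.Agent.Results.MP_e0d433_co.AllN
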