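import Pool.Agent.Lib.MP_e0d433_co.Lower.Final
import Pool.Agent.SP.Win

/-!
# MP_e0d433_co: a lower bound for the length of superpermutations

The classical lower bound is `n! + (n-1)! + (n-2)! + n - 3`.  We add `2 ((n-3)! - 1) / (n-1)`, which
is of order `2 (n-4)!`.
-/

namespace Pool.Agent.Results.MP_e0d433_co.LowerBound

open Pool.Agent.Lib.MP_e0d433_co Pool.Agent.Lib.MP_e0d433_co.Lower

theorem exists_superperm (n : ℕ) : ∃ w : List (Fin n), IsSuperperm n w := by
  refine ⟨(perms (Finset.univ : Finset (Fin n))).toList.flatten, ?_⟩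
  intro p hp hl
  apply List.infix_of_mem_flatten
  rw [Finset.mem_toList, mem_perms]
  refine ⟨hp, ?_⟩
  apply Finset.eq_univ_of_card
  rw [List.toFinset_card_of_nodup hp, hl, Fintype.card_fin]

theorem bound_of_super {n : ℕ} (hn : 3 ≤ n) {w : List (Fin n)} (hw : IsSuperperm n w) :
    ∃ Δ : ℕ, n.factorial + (n - 1).factorial + (n - 2).factorial + (n - 3) + Δ ≤ w.length ∧
      2 * (n - 3).factorial ≤ (n - 1) * Δ + 2 := by
  rcases Nat.lt_or_ge n 4 with h4 | h4
  · have h3 : n = 3 := by omega
    subst h3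
    obtain ⟨t, h1, _⟩ := superperm_bound (by norm_num) hw
    exact ⟨t, h1, by simp⟩
  · have h0 : 0 < n := by omega
    obtain ⟨Δ, h1, h2⟩ := SP.word_bound h4 (fun k => (w[k]?).getD ⟨0, h0⟩) w.length (by
      intro x
      have hp := hw (List.ofFn (fun i => x i)) (by
        rw [List.nodup_ofFn]
        exact x.injective) (by simp)
      obtain ⟨s, t, hst⟩ := hp
      refine ⟨s.length, ?_, ?_⟩
      · rw [← hst]; simp
      · intro i
        have hi := i.isLt
        have h1 : w[s.length + i.val]? = some (x i) := by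
          rw [← hst, List.append_assoc, List.getElem?_append_right (by omega)]
          have : s.length + i.val - s.length = i.val := by omega
          rw [this, List.getElem?_append_left (by simp)]
          simp
        show (w[s.length + i.val]?).getD _ = _
        rw [h1]
        rfl)
    exact ⟨Δ, le_of_eq h1.symm, h2⟩

/-- For every `n ≥ 3` the minimum length `L(n)` of a superpermutation satisfies
`L(n) ≥ n! + (n-1)! + (n-2)! + (n-3) + 2 ((n-3)! - 1) / (n-1)`. -/
theorem result (n : ℕ) (hn : 3 ≤ n) :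
    (n.factorial : ℝ) + (n - 1).factorial + (n - 2).factorial + (n - 3) +
      2 * ((n - 3).factorial - 1) / (n - 1) ≤ superLen n := by
  obtain ⟨w, hw, hlen⟩ : superLen n ∈
      {k : ℕ | ∃ w : List (Fin n), IsSuperperm n w ∧ w.length = k} := by
    apply Nat.sInf_mem
    obtain ⟨w, hw⟩ := exists_superperm n
    exact ⟨w.length, w, hw, rfl⟩
  obtain ⟨t, h1, h2⟩ := bound_of_super hn hw
  rw [hlen] at h1
  have hn' : (3 : ℝ) ≤ n := by exact_mod_cast hn
  have e3 : ((n - 3 : ℕ) : ℝ) = n - 3 := by
    rw [Nat.cast_sub (by omega)]; norm_num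
  have h1' : (n.factorial : ℝ) + (n - 1).factorial + (n - 2).factorial + (n - 3) + t ≤
      superLen n := by
    rw [← e3]
    exact_mod_cast h1
  have h2' : 2 * ((n - 3).factorial : ℝ) ≤ ((n - 1 : ℕ) : ℝ) * t + 2 := by
    exact_mod_cast h2
  rw [Nat.cast_sub (by omega : 1 ≤ n)] at h2'
  push_cast at h2'
  have h4 : 2 * (((n - 3).factorial : ℝ) - 1) / (n - 1) ≤ t := by
    rw [div_le_iff₀ (by linarith)]
    linarith
  linarith

end Pool.Agent.Results.MP_e0d433_co.LowerBound
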