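import Pool.Agent.Lib.MP_e0d433_co.Six.All

/-!
# MP_e0d433_co: the minimal length of a superpermutation on 6 symbols

`L(6) = 872`: the first value of `L(n)` beyond the classical ones (`1, 3, 9, 33, 153`).
-/

set_option autoImplicit false

namespace Pool.Agent.Results.MP_e0d433_co.Six

open Pool.Agent.Lib.MP_e0d433_co

/-- The least length of a word over `6` symbols in which every permutation of the symbols is a block
of consecutive letters is `872`. -/
theorem result :
    IsLeast {k : ℕ | ∃ w : List (Fin 6), IsSuperperm 6 w ∧ w.length = k} 872 ∧ superLen 6 = 872 :=
  Six.sFin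

end Pool.Agent.Results.MP_e0d433_co.Six
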