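import Pool.Agent.Lib.MP_e0d433_co.Upper

/-!
# Superpermutations: `L(n) ≤ n! + (n-1)! + (n-2)! + O((n-4)!)`
-/

namespace Pool.Agent.Results.MP_e0d433_co.UpperBound

open Pool.Agent.Lib.MP_e0d433_co

/-- For every `n ≥ 18` there is a superpermutation on `n` symbols of length at most
`n! + (n-1)! + (n-2)! + 40 (n-4)!`. -/
theorem result : ∀ n : ℕ, 18 ≤ n →
    ∃ w : List (Fin n), IsSuperperm n w ∧
      w.length ≤ n.factorial + (n - 1).factorial + (n - 2).factorial +
        40 * (n - 4).factorial := by
  intro n hn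
  exact upper hn

end Pool.Agent.Results.MP_e0d433_co.UpperBound
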